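import Mathlib
import Pool.Agent.Run7.h489.PX.NJ
import Pool.Agent.Run7.h489.PX.Big

set_option autoImplicit false

/-!
# Decomposable form equations with parameters: integral points on the complements of divisors in
`G_m^m × P^(n-1)` whose fibres are unions of hyperplanes

Let `K` be a number field and `S` a finite set of places containing the archimedean ones, with at least
two elements. Let `F(u, x) = ∑_a u^a F_a(x)` be a polynomial in `u_1^(±1), ..., u_m^(±1)` and
`x = (x_1, ..., x_n)`, `n ≥ 2`, homogeneous of degree `d ≥ n` in `x`, which for all `u ∈ (K^*)^m` is a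
product of linear forms in `x` over the algebraic closure of `K`; if `n = 2`, this is no condition. So
the fibres of the divisor `D = {F = 0}` in `G_m^m × P^(n-1)` over `u` are unions of `d` hyperplanes
`l_1 = 0, ..., l_d = 0`. `D` may be irreducible: e.g. `F` can be a norm form over a finite extension of
`K(u)`. The integral points of the complement `U` of `D` are the solutions of the decomposable form
equations `F(u, x) ∈ O_S^*` with the parameters `u_i ∈ O_S^*`.

The discriminant of `F` is the product `R(u)` of the determinants of the `l_(J 1), ..., l_(J n)` over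
all injective maps `J : {1, ..., n} → {1, ..., d}`, a Laurent polynomial in `u`. Suppose that it is not
zero: the hyperplanes over a general `u` are in general position. We suppose that `R` is not a monomial
`c u^a`: they are not in general position over all `u`. This holds if `U` is a variety of log general
type: if `R` is a monomial, then over a finite etale cover of `G_m^m`, which is again a torus, there
are coordinates in which the `l_i` are constant, since a torus has no nonconstant morphism to the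
moduli space of `d` hyperplanes in general position with `n + 1` of them fixed. So `U` is covered by
a product with a torus.

The Lang-Vojta conjecture predicts that the integral points of `U` are not Zariski dense if `U` is of
log general type. We prove that for all but a small proportion of the tuples `u` of `S`-units, all
integral points `(u, t)` with `h(t) ≤ B h(u)` lie in a fixed proper closed subset. More precisely, all
points `t ∈ P^(n-1)(K)` of this height such that `(u, t)` is not in the closed subset satisfy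
`N_(S, D)(u, t) ≥ c T`: the part of the ideal `(F(u, t)) (t_1, ..., t_n)^(-d)` which is prime to `S` has
norm at least `e^(c T)`.
-/

namespace Pool.Agent.Results.MP_26d9ad_nt.DecomposableForms

open NumberField IsDedekindDomain Height

section defs

variable {K : Type} [Field K] {m n : ℕ}

/-- The monomial `u^a`. -/
def monomialAt (u : Fin m → K) (a : Fin m → ℤ) : K := ∏ i, u i ^ a i

/-- The form `F(u, x)` in `x` for given `u`, where `F = ∑_a u^a F_a`. -/
noncomputable def fibre (F : (Fin m → ℤ) →₀ MvPolynomial (Fin n) K) (u : Fin m → K) :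
    MvPolynomial (Fin n) K := ∑ a ∈ F.support, MvPolynomial.C (monomialAt u a) * F a

/-- The value at `u` of the Laurent polynomial `R = ∑ R_a u^a`. -/
noncomputable def laurent (R : (Fin m → ℤ) →₀ K) (u : Fin m → K) : K :=
  R.sum fun a c => c * monomialAt u a

/-- The product of the linear forms with the coefficients `l i`. -/
noncomputable def product {d : ℕ} (l : Fin d → Fin n → K) : MvPolynomial (Fin n) K :=
  ∏ i, ∑ j, MvPolynomial.C (l i j) * MvPolynomial.X j

/-- For all `u ∈ (K^*)^m` the form `F(u, x)` is a product of `d` linear forms over the algebraic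
closure. -/
def HasHyperplaneFibres (F : (Fin m → ℤ) →₀ MvPolynomial (Fin n) K) (d : ℕ) : Prop :=
  ∀ u : Fin m → K, (∀ i, u i ≠ 0) → ∃ l : Fin d → Fin n → AlgebraicClosure K,
    MvPolynomial.map (algebraMap K (AlgebraicClosure K)) (fibre F u) = product l

/-- `R` is the discriminant of `F`: if `F(u, x)` is the product of `l_1, ..., l_d`, then `R(u)` is the
product of the determinants of `l_(J 1), ..., l_(J n)` over all injective maps `J` from `{1, ..., n}` to
`{1, ..., d}`. -/
def IsDiscriminant (F : (Fin m → ℤ) →₀ MvPolynomial (Fin n) K) (d : ℕ)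
    (R : (Fin m → ℤ) →₀ K) : Prop :=
  ∀ u : Fin m → K, (∀ i, u i ≠ 0) → ∀ l : Fin d → Fin n → AlgebraicClosure K,
    MvPolynomial.map (algebraMap K (AlgebraicClosure K)) (fibre F u) = product l →
    algebraMap K (AlgebraicClosure K) (laurent R u) =
      ∏ J : Fin n ↪ Fin d, (Matrix.of fun i j => l (J i) j).det

/-- `G(u, x)` is a nonzero polynomial, homogeneous of degree `e` in `x`. Its zeros are a proper closed
subset of `G_m^m × P^(n-1)`. -/
def IsForm (G : MvPolynomial (Fin m ⊕ Fin n) K) (e : ℕ) : Prop :=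
  G ≠ 0 ∧ MvPolynomial.IsWeightedHomogeneous (Sum.elim (fun _ => 0) fun _ => 1) G e

end defs

section arith

variable {K : Type} [Field K] [NumberField K] {m n : ℕ}

/-- The sum of a function over the places in `S`: the archimedean places, with their
multiplicities, and the given primes. -/
noncomputable def sumS (S : Finset (HeightOneSpectrum (𝓞 K))) (g : AbsoluteValue K ℝ → ℝ) : ℝ :=
  ∑ v : InfinitePlace K, v.mult * g v.1 + ∑ v ∈ S, g (FinitePlace.mk v).1

/-- The counting function `N_(S, D)(u, t) = ∑_(v ∉ S) log (|t|_v^d / |F(u, t)|_v)` of `D`, where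
`|t|_v = max |t_i|_v`. -/
noncomputable def counting (S : Finset (HeightOneSpectrum (𝓞 K)))
    (F : (Fin m → ℤ) →₀ MvPolynomial (Fin n) K) (d : ℕ) (u : Fin m → K) (t : Fin n → K) : ℝ :=
  ∑ᶠ (v : HeightOneSpectrum (𝓞 K)) (_ : v ∉ S),
    Real.log ((⨆ i, FinitePlace.mk v (t i)) ^ d /
      FinitePlace.mk v (MvPolynomial.eval t (fibre F u)))

/-- The point `(u, t)` does not meet `D` outside of `S`: `|F(u, t)|_v ≥ |t|_v^d` for all `v ∉ S`. If
the coefficients of `F` are `S`-integers, this means that the `O_S`-ideals `(F(u, t))` and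
`(t_1, ..., t_n)^d` are equal. -/
def IsIntegral (S : Finset (HeightOneSpectrum (𝓞 K)))
    (F : (Fin m → ℤ) →₀ MvPolynomial (Fin n) K) (d : ℕ) (u : Fin m → K) (t : Fin n → K) : Prop :=
  ∀ v : HeightOneSpectrum (𝓞 K), v ∉ S →
    (⨆ i, FinitePlace.mk v (t i)) ^ d ≤ FinitePlace.mk v (MvPolynomial.eval t (fibre F u))

end arith

/-- (Heights are relative to `K`, not divided by the degree.) Let `#S ≥ 2` and `d ≥ n ≥ 2`, let `F` be
homogeneous of degree `d` in `x` with hyperplane fibres (no condition if `n = 2`) and with the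
discriminant `R ≠ 0`, let `q = n (d - 1) (d - 2) ... (d - n + 1)`, and let `N(T)` be the number of the
tuples `u ∈ (O_S^*)^m` with all `h(u_i) ≤ T`. Let `B ≥ 0` and `η > 0`.
(1) For every `ε > 0` there is a proper closed subset `Z = {G = 0}` of `G_m^m × P^(n-1)` such that for
all large `T`, for all but at most `η N(T)` of these tuples `u`, all `t ∈ P^(n-1)(K)` with `h(t) ≤ B T`
and `(u, t)` not in `Z` and `D` satisfy `q N_(S, D)(u, t) ≥ ∑_(v ∈ S) log |R(u)|_v - ε T`.
(2) If `R` is not a monomial, there are `Z` and `c > 0` such that for all large `T`, for all but at most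
`η N(T)` of these tuples `u`, all `t ∈ P^(n-1)(K)` with `h(t) ≤ B T` and `(u, t)` not in `Z` and `D`
satisfy `N_(S, D)(u, t) ≥ c T`.
(3) For integral points `(u, t)` one has `N_(S, D)(u, t) ≤ 0`, so in (2) there are none. -/
theorem result (K : Type) [Field K] [NumberField K] (S : Finset (HeightOneSpectrum (𝓞 K)))
    (hS : 2 ≤ Fintype.card (InfinitePlace K) + S.card) (m n d : ℕ) (hn : 2 ≤ n) (hnd : n ≤ d)
    (F : (Fin m → ℤ) →₀ MvPolynomial (Fin n) K) (hF : ∀ a, (F a).IsHomogeneous d)
    (hl : 3 ≤ n → HasHyperplaneFibres F d) (R : (Fin m → ℤ) →₀ K) (hR : IsDiscriminant F d R)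
    (hR0 : R ≠ 0) (B η : ℝ) (hη : 0 < η) :
    (∀ ε : ℝ, 0 < ε → ∃ (G : MvPolynomial (Fin m ⊕ Fin n) K) (e : ℕ) (T₀ : ℝ), IsForm G e ∧
      ∀ T : ℝ, T₀ ≤ T →
        (({u : Fin m → Kˣ | (∀ i, u i ∈ (S : Set (HeightOneSpectrum (𝓞 K))).unit K ∧
            logHeight₁ (u i : K) ≤ T) ∧
          ∃ t : Fin n → K, t ≠ 0 ∧ MvPolynomial.eval t (fibre F fun i => (u i : K)) ≠ 0 ∧
            logHeight t ≤ B * T ∧ MvPolynomial.eval (Sum.elim (fun i => (u i : K)) t) G ≠ 0 ∧
            ((n * (d - 1).descFactorial (n - 1) : ℕ) : ℝ) *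
                counting S F d (fun i => (u i : K)) t <
              sumS S (fun v => Real.log (v (laurent R fun i => (u i : K)))) - ε * T}.ncard :
                ℕ) : ℝ) ≤
          η * (({u : Fin m → Kˣ | ∀ i, u i ∈ (S : Set (HeightOneSpectrum (𝓞 K))).unit K ∧
            logHeight₁ (u i : K) ≤ T}.ncard : ℕ) : ℝ)) ∧
    (2 ≤ R.support.card → ∃ (G : MvPolynomial (Fin m ⊕ Fin n) K) (e : ℕ) (c T₀ : ℝ),
      IsForm G e ∧ 0 < c ∧ ∀ T : ℝ, T₀ ≤ T →
        (({u : Fin m → Kˣ | (∀ i, u i ∈ (S : Set (HeightOneSpectrum (𝓞 K))).unit K ∧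
            logHeight₁ (u i : K) ≤ T) ∧
          ∃ t : Fin n → K, t ≠ 0 ∧ MvPolynomial.eval t (fibre F fun i => (u i : K)) ≠ 0 ∧
            logHeight t ≤ B * T ∧ MvPolynomial.eval (Sum.elim (fun i => (u i : K)) t) G ≠ 0 ∧
            counting S F d (fun i => (u i : K)) t < c * T}.ncard : ℕ) : ℝ) ≤
          η * (({u : Fin m → Kˣ | ∀ i, u i ∈ (S : Set (HeightOneSpectrum (𝓞 K))).unit K ∧
            logHeight₁ (u i : K) ≤ T}.ncard : ℕ) : ℝ)) ∧
    ∀ (u : Fin m → K) (t : Fin n → K), t ≠ 0 → MvPolynomial.eval t (fibre F u) ≠ 0 →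
      IsIntegral S F d u t → counting S F d u t ≤ 0 := by
  have hcard : (Pool.Agent.R404.TC.Sp S).card = Fintype.card (InfinitePlace K) + S.card := by
    show (Finset.disjSum _ _).card = _
    rw [Finset.card_disjSum, Finset.card_univ]
  have hSp : 2 ≤ (Pool.Agent.R404.TC.Sp S).card := by
    rw [hcard]
    exact hS
  have hsum : ∀ g : AbsoluteValue K ℝ → ℝ, sumS S g =
      ∑ v ∈ Pool.Agent.R404.TC.Sp S, Pool.Agent.W180.OP.wt v * g (Pool.Agent.W180.OP.av v) := by
    intro g
    unfold sumS Pool.Agent.R404.TC.Sp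
    rw [Finset.sum_disjSum]
    congr 1
    refine Finset.sum_congr rfl fun v _ => ?_
    show _ = (1 : ℝ) * g (FinitePlace.mk v).1
    rw [one_mul]
  have hlin : Pool.Agent.Run7.h489.PX.Spl F d := by
    by_cases h3 : 3 ≤ n
    · exact hl h3
    · obtain rfl : n = 2 := by omega
      exact Pool.Agent.Run7.h489.PX.Spl_two hF (by omega)
  have hR' : Pool.Agent.Run7.h489.PX.DiscN F d R := hR
  have hcnt : ∀ (u : Fin m → K) (t : Fin n → K), Pool.Agent.R404.TC.cnt S d
      (Pool.Agent.Run7.h489.PX.fbn F u) t = counting S F d u t := fun _ _ => rfl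
  let φ : (Fin m → Kˣ) → Fin m → K := fun u i => (u i : K)
  have hφ : Function.Injective φ := fun u u' h => by
    funext i
    exact Units.ext (congrFun h i)
  have hBx : ∀ T : ℝ, {u : Fin m → Kˣ | ∀ i, u i ∈ (S : Set (HeightOneSpectrum (𝓞 K))).unit K ∧
      logHeight₁ (u i : K) ≤ T}.ncard = (Pool.Agent.Run7.h489.TM.Bx m S T).card := by
    intro T
    rw [← Set.ncard_image_of_injective _ hφ, ← Set.ncard_coe_finset]
    congr 1
    ext u
    constructor
    · rintro ⟨u', h2, rfl⟩
      exact Finset.mem_coe.2 (Pool.Agent.Run7.h489.TM.mem_Bx.2 fun i =>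
        ⟨(Pool.Agent.Run7.h489.LV.isU_iff (u' i)).2 (h2 i).1, (h2 i).2⟩)
    · intro h2
      have h3 := Pool.Agent.Run7.h489.TM.mem_Bx.1 (Finset.mem_coe.1 h2)
      refine ⟨fun i => Units.mk0 (u i) (h3 i).1.1, fun i => ⟨?_, (h3 i).2⟩, rfl⟩
      exact (Pool.Agent.Run7.h489.LV.isU_iff _).1 (h3 i).1
  have hmem : ∀ (u : Fin m → Kˣ) (T : ℝ), (∀ i, u i ∈ (S : Set (HeightOneSpectrum (𝓞 K))).unit K ∧
      logHeight₁ (u i : K) ≤ T) → φ u ∈ Pool.Agent.Run7.h489.TM.Bx m S T := fun u T hu =>
    Pool.Agent.Run7.h489.TM.mem_Bx.2 fun i =>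
      ⟨(Pool.Agent.Run7.h489.LV.isU_iff (u i)).2 (hu i).1, (hu i).2⟩
  have hfin : ∀ (T : ℝ) (p : (Fin m → K) → Prop),
      {u | u ∈ Pool.Agent.Run7.h489.TM.Bx m S T ∧ p u}.Finite := fun T p =>
    (Pool.Agent.Run7.h489.TM.Bx m S T).finite_toSet.subset fun u hu => hu.1
  have hBT : ∀ T : ℝ, 0 ≤ T → ∀ h : ℝ, h ≤ B * T → h ≤ max B 0 * T := fun T hT h hh =>
    hh.trans (mul_le_mul_of_nonneg_right (le_max_left _ _) hT)
  have hq0 : (0 : ℝ) < ((n * (d - 1).descFactorial (n - 1) : ℕ) : ℝ) := by
    have h1 : 0 < (d - 1).descFactorial (n - 1) := Nat.descFactorial_pos.2 (by omega)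
    have h2 : 0 < n * (d - 1).descFactorial (n - 1) := Nat.mul_pos (by omega) h1
    exact_mod_cast h2
  refine ⟨fun ε hε => ?_, fun hR2 => ?_, ?_⟩
  · obtain ⟨G, e, T₀, hG, hGe, h⟩ := Pool.Agent.Run7.h489.PX.mostn S hSp hn hnd hF hR0 hlin hR'
      hε hη (le_max_right B 0)
    refine ⟨G, e, max T₀ 0, ⟨hG, hGe⟩, fun T hT => ?_⟩
    have hT0 : 0 ≤ T := (le_max_right _ _).trans hT
    rw [hBx, Pool.Agent.Run7.h489.TM.card_Bx]
    push_cast
    refine le_trans ?_ (h T ((le_max_left _ _).trans hT))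
    rw [Nat.cast_le]
    refine Set.ncard_le_ncard_of_injOn φ ?_ hφ.injOn (hfin T _)
    rintro u ⟨hu, t, ht, hFt, hht, hGt, hlt⟩
    refine ⟨hmem u T hu, t, ht, hGt, hFt, hBT T hT0 _ hht, ?_⟩
    rw [hcnt]
    push_cast at hlt ⊢
    refine lt_of_lt_of_le hlt (le_of_eq ?_)
    rw [hsum]
    rfl
  · obtain ⟨c, T₁, hc, h1⟩ := Pool.Agent.Run7.h489.PX.disc_big S hSp hR2 (half_pos hη)
    obtain ⟨G, e, T₀, hG, hGe, h⟩ := Pool.Agent.Run7.h489.PX.mostn S hSp hn hnd hF hR0 hlin hR'
      (half_pos hc) (half_pos hη) (le_max_right B 0)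
    obtain ⟨q, hq⟩ : ∃ q : ℝ, q = ((n * (d - 1).descFactorial (n - 1) : ℕ) : ℝ) := ⟨_, rfl⟩
    rw [← hq] at h hq0
    refine ⟨G, e, c / 2 / q, max (max T₀ T₁) 0, ⟨hG, hGe⟩, by positivity, fun T hT => ?_⟩
    have hT0 : 0 ≤ T := (le_max_right _ _).trans hT
    have hTT : max T₀ T₁ ≤ T := (le_max_left _ _).trans hT
    rw [hBx, Pool.Agent.Run7.h489.TM.card_Bx]
    push_cast
    have h2 := h1 T ((le_max_right _ _).trans hTT)
    have h3 := h T ((le_max_left _ _).trans hTT)
    have h4 : η * ((Pool.Agent.Run7.h489.TM.UF S T).card : ℝ) ^ m =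
        η / 2 * ((Pool.Agent.Run7.h489.TM.UF S T).card : ℝ) ^ m +
        η / 2 * ((Pool.Agent.Run7.h489.TM.UF S T).card : ℝ) ^ m := by ring
    rw [h4]
    refine le_trans ?_ (add_le_add h2 h3)
    rw [← Nat.cast_add, Nat.cast_le]
    refine le_trans ?_ (Set.ncard_union_le _ _)
    refine Set.ncard_le_ncard_of_injOn φ ?_ hφ.injOn ((hfin T _).union (hfin T _))
    rintro u ⟨hu, t, ht, hFt, hht, hGt, hlt⟩
    by_cases h5 : ∑ v ∈ Pool.Agent.R404.TC.Sp S, Pool.Agent.W180.OP.wt v *
        Real.log (Pool.Agent.W180.OP.av v (Pool.Agent.Run7.h489.TM.ev R (φ u))) < c * T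
    · exact Or.inl ⟨hmem u T hu, h5⟩
    · right
      refine ⟨hmem u T hu, t, ht, hGt, hFt, hBT T hT0 _ hht, ?_⟩
      rw [hcnt]
      push Not at h5
      have h6 : q * counting S F d (φ u) t < q * (c / 2 / q * T) :=
        mul_lt_mul_of_pos_left hlt hq0
      have h7 : q * (c / 2 / q * T) = c / 2 * T := by
        rw [← mul_assoc, mul_div_cancel₀ _ hq0.ne']
      linarith
  · intro u t ht hFt hint
    have h3 : 0 ≤ ∑ᶠ (v : HeightOneSpectrum (𝓞 K)) (_ : v ∉ S),
        -Real.log ((⨆ i, FinitePlace.mk v (t i)) ^ d /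
          FinitePlace.mk v (MvPolynomial.eval t (fibre F u))) := by
      refine finsum_nonneg fun v => finsum_nonneg fun hv => ?_
      have h4 : 0 < FinitePlace.mk v (MvPolynomial.eval t (fibre F u)) :=
        (FinitePlace.mk v).1.pos hFt
      have h5 : 0 < ⨆ i, FinitePlace.mk v (t i) :=
        Pool.Agent.W180.OP.nrm_pos (FinitePlace.mk v).1 ht
      rw [neg_nonneg]
      refine Real.log_nonpos (by positivity) ?_
      rw [div_le_one h4]
      exact hint v hv
    have h5 : ∑ᶠ (v : HeightOneSpectrum (𝓞 K)) (_ : v ∉ S),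
        -Real.log ((⨆ i, FinitePlace.mk v (t i)) ^ d /
          FinitePlace.mk v (MvPolynomial.eval t (fibre F u))) = -counting S F d u t := by
      unfold counting
      rw [← finsum_neg_distrib]
      exact finsum_congr fun v => finsum_neg_distrib _
    linarith

end Pool.Agent.Results.MP_26d9ad_nt.DecomposableForms
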