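import Mathlib
import Pool.Agent.Run7.h489.PX.Cnt2
import Pool.Agent.Run7.h489.PX.Big

set_option autoImplicit false

/-!
# Integral points on the complements of divisors in `G_m^m × P¹`

Let `K` be a number field and `S` a finite set of places containing the archimedean ones, with at least
two elements. Let `F(u, x, y) = ∑_a u^a F_a(x, y)` be a polynomial in `u_1^(±1), ..., u_m^(±1)` and
`x, y`, homogeneous of degree `n ≥ 2` in `x, y`, and `D = {F = 0}` in `G_m^m × P¹`. The integral points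
of the complement `U` of `D` are the solutions of the Thue-Mahler equations with the parameters
`u_i ∈ O_S^*`. No condition is imposed on `F` besides that its discriminant `Δ(u)` with respect to
`x, y` is not a monomial `c u^a`. This holds if `U` is a variety of log general type: if `Δ` is a
monomial, then `D` is etale over `G_m^m`, and over a finite etale cover of `G_m^m` which is again a
torus, `U` becomes the product of the torus and `P¹` minus `n` points. So the theorem covers the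
complements of all divisors in `G_m^m × P¹` which are of log general type and on which `F` has
no multiple factors (a multiple factor can be omitted).

The Lang-Vojta conjecture predicts that the integral points of `U` are not Zariski dense. We prove that
for `100%` of the tuples `u` of `S`-units, all integral points `(u, t)` with `h(t) ≤ B h(u)` lie in a
fixed proper closed subset. More precisely, all points `t ∈ P¹(K)` of this height such that `(u, t)` is
not in the closed subset satisfy `N_(S, D)(u, t) ≥ c T`: the part of the ideal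
`(F(u, x, y)) (x, y)^(-n)` which is prime to `S` has norm at least `e^(c T)`.
-/

namespace Pool.Agent.Results.MP_26d9ad_nt.EveryDivisor

open NumberField IsDedekindDomain Height

section defs

variable {K : Type} [Field K] {m : ℕ}

/-- The monomial `u^a`. -/
def monomialAt (u : Fin m → K) (a : Fin m → ℤ) : K := ∏ i, u i ^ a i

/-- The form `F(u, x, y)` in `x, y` for given `u`, where `F = ∑_a u^a F_a`. -/
noncomputable def fibre (F : (Fin m → ℤ) →₀ MvPolynomial (Fin 2) K) (u : Fin m → K) :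
    MvPolynomial (Fin 2) K := ∑ a ∈ F.support, MvPolynomial.C (monomialAt u a) * F a

/-- The value at `u` of the Laurent polynomial `Δ = ∑ Δ_a u^a`. -/
noncomputable def laurent (Δ : (Fin m → ℤ) →₀ K) (u : Fin m → K) : K :=
  Δ.sum fun a c => c * monomialAt u a

/-- `Δ` is the discriminant of `F`: if `F(u, x, y) = ∏_j (b_j x - a_j y)` over the algebraic closure,
then `Δ(u) = ∏_(i < j) (a_i b_j - a_j b_i)^2`. -/
def IsDiscriminant (F : (Fin m → ℤ) →₀ MvPolynomial (Fin 2) K) (n : ℕ)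
    (Δ : (Fin m → ℤ) →₀ K) : Prop :=
  ∀ u : Fin m → K, (∀ i, u i ≠ 0) → ∀ a b : Fin n → AlgebraicClosure K,
    MvPolynomial.map (algebraMap K (AlgebraicClosure K)) (fibre F u) =
      ∏ j, (MvPolynomial.C (b j) * MvPolynomial.X 0 - MvPolynomial.C (a j) * MvPolynomial.X 1) →
    algebraMap K (AlgebraicClosure K) (laurent Δ u) =
      ∏ i, ∏ j ∈ Finset.Ioi i, (a i * b j - a j * b i) ^ 2

/-- `G(u, x, y)` is a nonzero polynomial, homogeneous of degree `e` in `x, y`. Its zeros are a proper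
closed subset of `G_m^m × P¹`. -/
def IsForm (G : MvPolynomial (Fin m ⊕ Fin 2) K) (e : ℕ) : Prop :=
  G ≠ 0 ∧ MvPolynomial.IsWeightedHomogeneous (Sum.elim (fun _ => 0) fun _ => 1) G e

end defs

section arith

variable {K : Type} [Field K] [NumberField K] {m : ℕ}

/-- The sum of a function over the places in `S`: the archimedean places, with their
multiplicities, and the given primes. -/
noncomputable def sumS (S : Finset (HeightOneSpectrum (𝓞 K))) (g : AbsoluteValue K ℝ → ℝ) : ℝ :=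
  ∑ v : InfinitePlace K, v.mult * g v.1 + ∑ v ∈ S, g (FinitePlace.mk v).1

/-- The counting function `N_(S, D)(u, t) = ∑_(v ∉ S) log (|t|_v^n / |F(u, t)|_v)` of `D`, where
`|t|_v = max (|t_0|_v, |t_1|_v)`. -/
noncomputable def counting (S : Finset (HeightOneSpectrum (𝓞 K)))
    (F : (Fin m → ℤ) →₀ MvPolynomial (Fin 2) K) (n : ℕ) (u : Fin m → K) (t : Fin 2 → K) : ℝ :=
  ∑ᶠ (v : HeightOneSpectrum (𝓞 K)) (_ : v ∉ S),
    Real.log ((⨆ i, FinitePlace.mk v (t i)) ^ n /
      FinitePlace.mk v (MvPolynomial.eval t (fibre F u)))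

/-- The point `(u, t)` does not meet `D` outside of `S`: `|F(u, t)|_v ≥ |t|_v^n` for all `v ∉ S`. If
the coefficients of `F` are `S`-integers, this means that the `O_S`-ideals `(F(u, t))` and
`(t_0, t_1)^n` are equal. -/
def IsIntegral (S : Finset (HeightOneSpectrum (𝓞 K)))
    (F : (Fin m → ℤ) →₀ MvPolynomial (Fin 2) K) (n : ℕ) (u : Fin m → K) (t : Fin 2 → K) : Prop :=
  ∀ v : HeightOneSpectrum (𝓞 K), v ∉ S →
    (⨆ i, FinitePlace.mk v (t i)) ^ n ≤ FinitePlace.mk v (MvPolynomial.eval t (fibre F u))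

end arith

/-- (Heights are relative to `K`, not divided by the degree.) Let `#S ≥ 2`, let `F` be homogeneous of
degree `n ≥ 2` in `x, y` with the discriminant `Δ ≠ 0`, and let `N(T)` be the number of the tuples
`u ∈ (O_S^*)^m` with all `h(u_i) ≤ T`. Let `B ≥ 0` and `η > 0`.
(1) For every `ε > 0` there is a proper closed subset `Z = {G = 0}` of `G_m^m × P¹` such that for all
large `T`, for all but at most `η N(T)` of these tuples `u`, all `t ∈ P¹(K)` with `h(t) ≤ B T` and
`(u, t)` not in `Z` and `D` satisfy `(2 n - 2) N_(S, D)(u, t) ≥ ∑_(v ∈ S) log |Δ(u)|_v - ε T`.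
(2) If `Δ` is not a monomial, there are `Z` and `c > 0` such that for all large `T`, for all but at most
`η N(T)` of these tuples `u`, all `t ∈ P¹(K)` with `h(t) ≤ B T` and `(u, t)` not in `Z` and `D` satisfy
`N_(S, D)(u, t) ≥ c T`.
(3) For integral points `(u, t)` one has `N_(S, D)(u, t) ≤ 0`, so in (2) there are none. -/
theorem result (K : Type) [Field K] [NumberField K] (S : Finset (HeightOneSpectrum (𝓞 K)))
    (hS : 2 ≤ Fintype.card (InfinitePlace K) + S.card) (m n : ℕ) (hn : 2 ≤ n)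
    (F : (Fin m → ℤ) →₀ MvPolynomial (Fin 2) K) (hF : ∀ a, (F a).IsHomogeneous n)
    (Δ : (Fin m → ℤ) →₀ K) (hΔ : IsDiscriminant F n Δ) (hΔ0 : Δ ≠ 0) (B η : ℝ) (hη : 0 < η) :
    (∀ ε : ℝ, 0 < ε → ∃ (G : MvPolynomial (Fin m ⊕ Fin 2) K) (e : ℕ) (T₀ : ℝ), IsForm G e ∧
      ∀ T : ℝ, T₀ ≤ T →
        (({u : Fin m → Kˣ | (∀ i, u i ∈ (S : Set (HeightOneSpectrum (𝓞 K))).unit K ∧
            logHeight₁ (u i : K) ≤ T) ∧
          ∃ t : Fin 2 → K, t ≠ 0 ∧ MvPolynomial.eval t (fibre F fun i => (u i : K)) ≠ 0 ∧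
            logHeight t ≤ B * T ∧ MvPolynomial.eval (Sum.elim (fun i => (u i : K)) t) G ≠ 0 ∧
            (2 * n - 2) * counting S F n (fun i => (u i : K)) t <
              sumS S (fun v => Real.log (v (laurent Δ fun i => (u i : K)))) - ε * T}.ncard :
                ℕ) : ℝ) ≤
          η * (({u : Fin m → Kˣ | ∀ i, u i ∈ (S : Set (HeightOneSpectrum (𝓞 K))).unit K ∧
            logHeight₁ (u i : K) ≤ T}.ncard : ℕ) : ℝ)) ∧
    (2 ≤ Δ.support.card → ∃ (G : MvPolynomial (Fin m ⊕ Fin 2) K) (e : ℕ) (c T₀ : ℝ),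
      IsForm G e ∧ 0 < c ∧ ∀ T : ℝ, T₀ ≤ T →
        (({u : Fin m → Kˣ | (∀ i, u i ∈ (S : Set (HeightOneSpectrum (𝓞 K))).unit K ∧
            logHeight₁ (u i : K) ≤ T) ∧
          ∃ t : Fin 2 → K, t ≠ 0 ∧ MvPolynomial.eval t (fibre F fun i => (u i : K)) ≠ 0 ∧
            logHeight t ≤ B * T ∧ MvPolynomial.eval (Sum.elim (fun i => (u i : K)) t) G ≠ 0 ∧
            counting S F n (fun i => (u i : K)) t < c * T}.ncard : ℕ) : ℝ) ≤
          η * (({u : Fin m → Kˣ | ∀ i, u i ∈ (S : Set (HeightOneSpectrum (𝓞 K))).unit K ∧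
            logHeight₁ (u i : K) ≤ T}.ncard : ℕ) : ℝ)) ∧
    ∀ (u : Fin m → K) (t : Fin 2 → K), t ≠ 0 → MvPolynomial.eval t (fibre F u) ≠ 0 →
      IsIntegral S F n u t → counting S F n u t ≤ 0 := by
  have hn1 : 1 ≤ n := by omega
  have hcard : (Pool.Agent.R404.TC.Sp S).card = Fintype.card (InfinitePlace K) + S.card := by
    show (Finset.disjSum _ _).card = _
    rw [Finset.card_disjSum, Finset.card_univ]
  have hSp : 2 ≤ (Pool.Agent.R404.TC.Sp S).card := by
    rw [hcard]
    exact hS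
  have hsum : ∀ g : AbsoluteValue K ℝ → ℝ, sumS S g =
      ∑ v ∈ Pool.Agent.R404.TC.Sp S, Pool.Agent.W180.OP.wt v * g (Pool.Agent.W180.OP.av v) := by
    intro g
    unfold sumS Pool.Agent.R404.TC.Sp
    rw [Finset.sum_disjSum]
    congr 1
    refine Finset.sum_congr rfl fun v _ => ?_
    show _ = (1 : ℝ) * g (FinitePlace.mk v).1
    rw [one_mul]
  have hfb : ∀ u : Fin m → K, Pool.Agent.Run7.h489.PX.fb F u = fibre F u := fun _ => rfl
  have hΔ' : Pool.Agent.Run7.h489.PX.IsDisc F n Δ := hΔ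
  have hcnt : ∀ (u : Fin m → K) (t : Fin 2 → K), Pool.Agent.R404.TC.cnt S n
      (Pool.Agent.Run7.h489.PX.fb F u) t = counting S F n u t := fun _ _ => rfl
  have hF0 : F ≠ 0 := by
    rintro rfl
    apply hΔ0
    obtain ⟨a, ha⟩ : ∃ a, Δ a ≠ 0 ∨ Δ = 0 := by
      by_cases h : Δ = 0
      · exact ⟨0, Or.inr h⟩
      · obtain ⟨a, ha⟩ := Finsupp.support_nonempty_iff.2 h
        exact ⟨a, Or.inl (Finsupp.mem_support_iff.1 ha)⟩
    rcases ha with ha | ha
    swap
    · exact ha
    exfalso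
    -- the discriminant of the zero form vanishes everywhere
    have hz : ∀ u : Fin m → K, (∀ i, u i ≠ 0) → laurent Δ u = 0 := by
      intro u hu
      have h1 := hΔ u hu (fun _ => 0) (fun _ => 0) (by
        have h2 : fibre (0 : (Fin m → ℤ) →₀ MvPolynomial (Fin 2) K) u = 0 := by
          unfold fibre
          simp
        rw [h2, map_zero]
        symm
        exact Finset.prod_eq_zero (Finset.mem_univ (⟨0, by omega⟩ : Fin n)) (by simp))
      apply (map_eq_zero (algebraMap K (AlgebraicClosure K))).1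
      rw [h1]
      refine Finset.prod_eq_zero (Finset.mem_univ (⟨0, by omega⟩ : Fin n)) ?_
      refine Finset.prod_eq_zero (Finset.mem_Ioi.2 (show (⟨0, by omega⟩ : Fin n) < ⟨1, by omega⟩ from
        Nat.zero_lt_one)) ?_
      simp
    obtain ⟨E, q, hq0, hq⟩ := Pool.Agent.Run7.h489.PX.clear' Δ
    apply hq0 hΔ0
    have hX : (∏ i : Fin m, MvPolynomial.X i) * q = (0 : MvPolynomial (Fin m) K) := by
      refine MvPolynomial.funext fun u => ?_
      rw [map_mul, map_prod, map_zero]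
      by_cases hu : ∀ i, u i ≠ 0
      · have h1 := hq u hu
        have h2 : Pool.Agent.Run7.h489.TM.ev Δ u = laurent Δ u := rfl
        rw [h1, h2, hz u hu, mul_zero, mul_zero]
      · push Not at hu
        obtain ⟨i, hi⟩ := hu
        rw [Finset.prod_eq_zero (Finset.mem_univ i) (by rw [MvPolynomial.eval_X]; exact hi),
          zero_mul]
    exact (mul_eq_zero.1 hX).resolve_left
      (Finset.prod_ne_zero_iff.2 fun i _ => MvPolynomial.X_ne_zero i)
  let φ : (Fin m → Kˣ) → Fin m → K := fun u i => (u i : K)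
  have hφ : Function.Injective φ := fun u u' h => by
    funext i
    exact Units.ext (congrFun h i)
  have hBx : ∀ T : ℝ, {u : Fin m → Kˣ | ∀ i, u i ∈ (S : Set (HeightOneSpectrum (𝓞 K))).unit K ∧
      logHeight₁ (u i : K) ≤ T}.ncard = (Pool.Agent.Run7.h489.TM.Bx m S T).card := by
    intro T
    rw [← Set.ncard_image_of_injective _ hφ, ← Set.ncard_coe_finset]
    congr 1
    ext u
    constructor
    · rintro ⟨u', h2, rfl⟩
      exact Finset.mem_coe.2 (Pool.Agent.Run7.h489.TM.mem_Bx.2 fun i =>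
        ⟨(Pool.Agent.Run7.h489.LV.isU_iff (u' i)).2 (h2 i).1, (h2 i).2⟩)
    · intro h2
      have h3 := Pool.Agent.Run7.h489.TM.mem_Bx.1 (Finset.mem_coe.1 h2)
      refine ⟨fun i => Units.mk0 (u i) (h3 i).1.1, fun i => ⟨?_, (h3 i).2⟩, rfl⟩
      exact (Pool.Agent.Run7.h489.LV.isU_iff _).1 (h3 i).1
  have hmem : ∀ (u : Fin m → Kˣ) (T : ℝ), (∀ i, u i ∈ (S : Set (HeightOneSpectrum (𝓞 K))).unit K ∧
      logHeight₁ (u i : K) ≤ T) → φ u ∈ Pool.Agent.Run7.h489.TM.Bx m S T := fun u T hu =>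
    Pool.Agent.Run7.h489.TM.mem_Bx.2 fun i =>
      ⟨(Pool.Agent.Run7.h489.LV.isU_iff (u i)).2 (hu i).1, (hu i).2⟩
  have hfin : ∀ (T : ℝ) (p : (Fin m → K) → Prop),
      {u | u ∈ Pool.Agent.Run7.h489.TM.Bx m S T ∧ p u}.Finite := fun T p =>
    (Pool.Agent.Run7.h489.TM.Bx m S T).finite_toSet.subset fun u hu => hu.1
  have hBT : ∀ T : ℝ, 0 ≤ T → ∀ h : ℝ, h ≤ B * T → h ≤ max B 0 * T := fun T hT h hh =>
    hh.trans (mul_le_mul_of_nonneg_right (le_max_left _ _) hT)
  refine ⟨fun ε hε => ?_, fun hΔ2 => ?_, ?_⟩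
  · obtain ⟨G, e, T₀, hG, hGe, h⟩ := Pool.Agent.Run7.h489.PX.disc_most S hSp hn1 hF hF0 hΔ' hΔ0
      hε hη (le_max_right B 0)
    refine ⟨G, e, max T₀ 0, ⟨hG, hGe⟩, fun T hT => ?_⟩
    have hT0 : 0 ≤ T := (le_max_right _ _).trans hT
    rw [hBx, Pool.Agent.Run7.h489.TM.card_Bx]
    push_cast
    refine le_trans ?_ (h T ((le_max_left _ _).trans hT))
    rw [Nat.cast_le]
    refine Set.ncard_le_ncard_of_injOn φ ?_ hφ.injOn (hfin T _)
    rintro u ⟨hu, t, ht, hFt, hht, hGt, hlt⟩
    refine ⟨hmem u T hu, t, ht, hGt, hFt, hBT T hT0 _ hht, ?_⟩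
    rw [hcnt]
    have h1 : (2 : ℝ) * (n - 1) = 2 * n - 2 := by ring
    rw [h1]
    refine lt_of_lt_of_le hlt (le_of_eq ?_)
    rw [hsum]
    rfl
  · obtain ⟨c, T₁, hc, h1⟩ := Pool.Agent.Run7.h489.PX.disc_big S hSp hΔ2 (half_pos hη)
    obtain ⟨G, e, T₀, hG, hGe, h⟩ := Pool.Agent.Run7.h489.PX.disc_most S hSp hn1 hF hF0 hΔ' hΔ0
      (half_pos hc) (half_pos hη) (le_max_right B 0)
    have hn2 : (0 : ℝ) < 2 * (n - 1) := by
      have : (2 : ℝ) ≤ n := by exact_mod_cast hn
      linarith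
    refine ⟨G, e, c / 2 / (2 * (n - 1)), max (max T₀ T₁) 0, ⟨hG, hGe⟩, by positivity,
      fun T hT => ?_⟩
    have hT0 : 0 ≤ T := (le_max_right _ _).trans hT
    have hTT : max T₀ T₁ ≤ T := (le_max_left _ _).trans hT
    rw [hBx, Pool.Agent.Run7.h489.TM.card_Bx]
    push_cast
    have h2 := h1 T ((le_max_right _ _).trans hTT)
    have h3 := h T ((le_max_left _ _).trans hTT)
    have h4 : η * ((Pool.Agent.Run7.h489.TM.UF S T).card : ℝ) ^ m =
        η / 2 * ((Pool.Agent.Run7.h489.TM.UF S T).card : ℝ) ^ m +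
        η / 2 * ((Pool.Agent.Run7.h489.TM.UF S T).card : ℝ) ^ m := by ring
    rw [h4]
    refine le_trans ?_ (add_le_add h2 h3)
    rw [← Nat.cast_add, Nat.cast_le]
    refine le_trans ?_ (Set.ncard_union_le _ _)
    refine Set.ncard_le_ncard_of_injOn φ ?_ hφ.injOn ((hfin T _).union (hfin T _))
    rintro u ⟨hu, t, ht, hFt, hht, hGt, hlt⟩
    by_cases h5 : ∑ v ∈ Pool.Agent.R404.TC.Sp S, Pool.Agent.W180.OP.wt v *
        Real.log (Pool.Agent.W180.OP.av v (Pool.Agent.Run7.h489.TM.ev Δ (φ u))) < c * T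
    · exact Or.inl ⟨hmem u T hu, h5⟩
    · right
      refine ⟨hmem u T hu, t, ht, hGt, hFt, hBT T hT0 _ hht, ?_⟩
      rw [hcnt]
      push Not at h5
      have h6 : 2 * ((n : ℝ) - 1) * counting S F n (φ u) t <
          2 * (n - 1) * (c / 2 / (2 * (n - 1)) * T) := mul_lt_mul_of_pos_left hlt hn2
      have h7 : 2 * ((n : ℝ) - 1) * (c / 2 / (2 * (n - 1)) * T) = c / 2 * T := by
        rw [← mul_assoc, mul_div_cancel₀ _ hn2.ne']
      linarith
  · intro u t ht hFt hint
    have h3 : 0 ≤ ∑ᶠ (v : HeightOneSpectrum (𝓞 K)) (_ : v ∉ S),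
        -Real.log ((⨆ i, FinitePlace.mk v (t i)) ^ n /
          FinitePlace.mk v (MvPolynomial.eval t (fibre F u))) := by
      refine finsum_nonneg fun v => finsum_nonneg fun hv => ?_
      have h4 : 0 < FinitePlace.mk v (MvPolynomial.eval t (fibre F u)) :=
        (FinitePlace.mk v).1.pos hFt
      have h5 : 0 < ⨆ i, FinitePlace.mk v (t i) :=
        Pool.Agent.W180.OP.nrm_pos (FinitePlace.mk v).1 ht
      rw [neg_nonneg]
      refine Real.log_nonpos (by positivity) ?_
      rw [div_le_one h4]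
      exact hint v hv
    have h5 : ∑ᶠ (v : HeightOneSpectrum (𝓞 K)) (_ : v ∉ S),
        -Real.log ((⨆ i, FinitePlace.mk v (t i)) ^ n /
          FinitePlace.mk v (MvPolynomial.eval t (fibre F u))) = -counting S F n u t := by
      unfold counting
      rw [← finsum_neg_distrib]
      exact finsum_congr fun v => finsum_neg_distrib _
    linarith

end Pool.Agent.Results.MP_26d9ad_nt.EveryDivisor
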