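import Mathlib
import Pool.Agent.Run7.h489.TM.Proj
import Pool.Agent.Run7.h489.LV.Cov

set_option autoImplicit false

/-!
# Integral points on families of Thue-Mahler equations with unit parameters

Let `K` be a number field, `S` a finite set of places containing the archimedean ones, with at
least two elements. Let `F = ∑ F_(ν,j) u^ν s^j` be a Laurent polynomial in `u_1, ..., u_m` and a
polynomial of degree `n ≥ 2` in `s`. Let `U` be the complement of the divisor `D = {F = 0}` (closed
up in `G_m^m × P¹`) in `G_m^m × P¹`, fibred over `G_m^m` by the curves `P¹` minus `n` points. Its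
integral points are the solutions of the Thue-Mahler equations with the parameters `u_i ∈ O_S^*`.

`F` is assumed to be nondegenerate: for every direction `θ ∈ ℝ^m` outside finitely many rational
hyperplanes, there are `κ, μ ∈ ℤ^m` such that in `F(u, u^κ X)` the monomial `u^μ` strictly dominates
in the direction `θ`, and its coefficient is a separable polynomial of degree `n` in `X` with
nonzero constant term. For example, this holds for `P^r` minus `r = m + 1` hyperplanes
`X_0, ..., X_m` and a hypersurface of degree `n ≥ 2` which does not contain the common point of the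
hyperplanes and meets the lines where all but one of `X_0, ..., X_m` vanish in `n` distinct points:
see `projective` below. These are varieties of log general type.
-/

namespace Pool.Agent.Results.MP_26d9ad_nt.UnitFamilies

open Polynomial NumberField IsDedekindDomain Height
open Pool.Agent.Run7.h489.TM
open Pool.Agent.Run7.h489.LV (IsU isU_iff fv_le_one_iff mem_Sp_inr)
open Pool.Agent.W180.OP (fv)

section defs

variable {K : Type} [Field K] {m : ℕ}

/-- The monomial `u^ν`. -/
def mon (u : Fin m → K) (ν : Fin m → ℤ) : K := ∏ i, u i ^ ν i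

/-- The value at `u` of the Laurent polynomial `a = ∑ a_ν u^ν`. -/
noncomputable def laurent (a : (Fin m → ℤ) →₀ K) (u : Fin m → K) : K :=
  a.sum fun ν c => c * mon u ν

/-- The value at `(u, s)` of `F = ∑ F_(ν,j) u^ν s^j`. -/
noncomputable def value (F : ((Fin m → ℤ) × ℕ) →₀ K) (u : Fin m → K) (s : K) : K :=
  F.sum fun e c => c * (mon u e.1 * s ^ e.2)

/-- The coefficient of `u^μ` in `F(u, u^κ X)`. -/
noncomputable def leading (F : ((Fin m → ℤ) × ℕ) →₀ K) (κ μ : Fin m → ℤ) : K[X] :=
  open Classical in ∑ e ∈ F.support with e.1 + e.2 • κ = μ, monomial e.2 (F e)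

/-- The value of the linear form `ν` in the direction `θ`. -/
def pair (θ : Fin m → ℝ) (ν : Fin m → ℤ) : ℝ := ∑ i, ν i * θ i

/-- `F` has degree at most `n` in `s`, and for all `θ ∈ ℝ^m` outside of finitely many rational
hyperplanes there are `κ, μ` such that `u^μ` is the strictly dominating monomial of `F(u, u^κ X)` in
the direction `θ` and its coefficient is separable, of degree `n` and not divisible by `X`. -/
def Nondegenerate (F : ((Fin m → ℤ) × ℕ) →₀ K) (n : ℕ) : Prop :=
  (∀ e ∈ F.support, e.2 ≤ n) ∧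
    ∃ N : Finset (Fin m → ℤ), (∀ ν ∈ N, ν ≠ 0) ∧
      ∀ θ : Fin m → ℝ, (∀ ν ∈ N, pair θ ν ≠ 0) → ∃ κ μ : Fin m → ℤ,
        (leading F κ μ).natDegree = n ∧ (leading F κ μ).coeff 0 ≠ 0 ∧
        (leading F κ μ).Separable ∧
        ∀ e ∈ F.support, e.1 + e.2 • κ ≠ μ → pair θ (e.1 + e.2 • κ) < pair θ μ

/-- `F(u, u^κ X) = u^μ g(X)` for some `κ`, `μ` and `g`. -/
def Isotrivial (F : ((Fin m → ℤ) × ℕ) →₀ K) : Prop :=
  ∃ κ μ : Fin m → ℤ, ∀ e ∈ F.support, e.1 + e.2 • κ = μ

end defs

section arith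

variable {K : Type} [Field K] [NumberField K] {m : ℕ}

/-- The `S`-integral points `(u, s)` of `U`: the `u_i` are `S`-units and `F(u, s)` divides
`1, s, ..., s^n` in the ring of `S`-integers. Here `S` consists of the archimedean places and the
given primes. (If the coefficients of `F` are `S`-integers and `s = x / y`, the second condition
means that the ideals `(y^n F(u, x / y))` and `(x, y)^n` of `O_S` are equal.) -/
def IsIntegral (S : Finset (HeightOneSpectrum (𝓞 K))) (F : ((Fin m → ℤ) × ℕ) →₀ K) (n : ℕ)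
    (u : Fin m → Kˣ) (s : K) : Prop :=
  (∀ i, u i ∈ (S : Set (HeightOneSpectrum (𝓞 K))).unit K) ∧ value F (fun i => (u i : K)) s ≠ 0 ∧
    ∀ j ≤ n, s ^ j / value F (fun i => (u i : K)) s ∈ (S : Set (HeightOneSpectrum (𝓞 K))).integer K

/-- The height of `u`. -/
noncomputable def ht (u : Fin m → Kˣ) : ℝ := ∑ i, logHeight₁ (u i : K)

end arith

/-- Let `F` be nondegenerate, of degree `n ≥ 2` in `s`, and not isotrivial, and let `B` be a real
number. We consider the integral points `(u, s)` of `U` with `h(s) ≤ B h(u)` respectively with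
`h(s) ≤ B T`.
(1) There are finitely many `ν ∈ ℤ^m \ {0}` such that for every `δ > 0` the integral points
`(u, s)` with `|log |u^ν|_v| ≥ δ h(u)` for all these `ν` and all `v ∈ S` and with `h(s) ≤ B h(u)` are
not Zariski dense: up to a finite set of `u` they satisfy one of finitely many equations
`a(u) s + b(u) = 0`, where `(a, b) ≠ (0, 0)`.
(2) For every `ε > 0` there are finitely many rational functions `-b/a` such that for all large
`T` and for all but at most `ε N(T)` of the `N(T)` tuples `u ∈ (O_S^*)^m` with all `h(u_i) ≤ T`, each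
integral point `(u, s)` with `h(s) ≤ B T` is `(u, -b(u)/a(u))` for one of them. -/
theorem result (K : Type) [Field K] [NumberField K] (S : Finset (HeightOneSpectrum (𝓞 K)))
    (hS : 2 ≤ Fintype.card (InfinitePlace K) + S.card) (m n : ℕ) (hn : 2 ≤ n)
    (F : ((Fin m → ℤ) × ℕ) →₀ K) (hF : Nondegenerate F n) (hiso : ¬ Isotrivial F) (B : ℝ) :
    (∃ W : Finset (Fin m → ℤ), (∀ ν ∈ W, ν ≠ 0) ∧ ∀ δ : ℝ, 0 < δ →
      ∃ (Z : Finset (((Fin m → ℤ) →₀ K) × ((Fin m → ℤ) →₀ K))) (C : ℝ), (∀ p ∈ Z, p ≠ 0) ∧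
        ∀ (u : Fin m → Kˣ) (s : K), IsIntegral S F n u s → logHeight₁ s ≤ B * ht u →
          (∃ p ∈ Z, laurent p.1 (fun i => (u i : K)) * s + laurent p.2 (fun i => (u i : K)) = 0) ∨
          ht u ≤ C ∨
          ∃ ν ∈ W, (∃ v : InfinitePlace K, |Real.log (v (mon (fun i => (u i : K)) ν))| < δ * ht u) ∨
            ∃ v ∈ S, |Real.log (FinitePlace.mk v (mon (fun i => (u i : K)) ν))| < δ * ht u) ∧
    ∀ ε : ℝ, 0 < ε →
      ∃ (R : Finset (((Fin m → ℤ) →₀ K) × ((Fin m → ℤ) →₀ K))) (T₀ : ℝ), ∀ T : ℝ, T₀ ≤ T →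
        (({u : Fin m → Kˣ | (∀ i, logHeight₁ (u i : K) ≤ T) ∧
          ∃ s : K, IsIntegral S F n u s ∧ logHeight₁ s ≤ B * T ∧
            ¬ ∃ p ∈ R, laurent p.1 (fun i => (u i : K)) ≠ 0 ∧
              s = -laurent p.2 (fun i => (u i : K)) / laurent p.1 (fun i => (u i : K))}.ncard :
                ℕ) : ℝ) ≤
          ε * (({u : Fin m → Kˣ | ∀ i, u i ∈ (S : Set (HeightOneSpectrum (𝓞 K))).unit K ∧
            logHeight₁ (u i : K) ≤ T}.ncard : ℕ) : ℝ) := by
  classical
  have hcard : (Pool.Agent.R404.TC.Sp S).card = Fintype.card (InfinitePlace K) + S.card := by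
    show (Finset.disjSum _ _).card = _
    rw [Finset.card_disjSum, Finset.card_univ]
  have hn1 : 1 ≤ n := by omega
  obtain ⟨hdeg, N, hN0, hN⟩ := hF
  have hN' : ∀ θ : Fin m → ℝ, (∀ ν ∈ N, dt θ ν ≠ 0) → ∃ κ μ, IsChart F n κ μ ∧
      ∀ e ∈ F.support, e.1 + e.2 • κ ≠ μ → dt θ (e.1 + e.2 • κ) < dt θ μ := by
    intro θ hθ
    obtain ⟨κ, μ, h1, h2, h3, h4⟩ := hN θ hθ
    exact ⟨κ, μ, ⟨h1, h2, h3⟩, h4⟩
  have hunit : ∀ u : Kˣ, u ∈ (S : Set (HeightOneSpectrum (𝓞 K))).unit K → IsU S (u : K) :=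
    fun u h => (isU_iff u).2 h
  have hint : ∀ (u : Fin m → Kˣ) (s : K), IsIntegral S F n u s →
      ∀ v ∉ S, max (fv v s) 1 ^ n ≤ fv v (val F (fun i => (u i : K)) s) := by
    rintro u s ⟨-, h0, h⟩ v hv
    have hx : 0 < fv v (val F (fun i => (u i : K)) s) := (fv v).pos h0
    have h1 := (fv_le_one_iff v _).2 (h 0 (Nat.zero_le _) v hv)
    have h2 := (fv_le_one_iff v _).2 (h n le_rfl v hv)
    have e1 : fv v (s ^ 0 / value F (fun i => (u i : K)) s) =
        1 / fv v (val F (fun i => (u i : K)) s) := by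
      rw [pow_zero, map_div₀, map_one]
      rfl
    have e2 : fv v (s ^ n / value F (fun i => (u i : K)) s) =
        fv v s ^ n / fv v (val F (fun i => (u i : K)) s) := by
      rw [map_div₀, map_pow]
      rfl
    rw [e1, div_le_one hx] at h1
    rw [e2, div_le_one hx] at h2
    rcases le_total (fv v s) 1 with h3 | h3
    · rw [max_eq_right h3, one_pow]
      exact h1
    · rw [max_eq_left h3]
      exact h2
  set B' : ℝ := max B 0 with hB'
  have hB0 : 0 ≤ B' := le_max_right _ _
  refine ⟨⟨walls F hn1 N, fun ν hν => Finset.ne_of_mem_erase hν, fun δ hδ => ?_⟩, fun ε hε => ?_⟩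
  · obtain ⟨Z, C, hZ, h⟩ := generic (S := S) F hn hn1 hdeg hiso hN0 hN' hδ hB0
    refine ⟨Z, C, hZ, fun u s hus hh => ?_⟩
    by_cases h1 : ∃ p ∈ Z,
        laurent p.1 (fun i => (u i : K)) * s + laurent p.2 (fun i => (u i : K)) = 0
    · exact Or.inl h1
    right
    by_cases h2 : ∀ v ∈ Pool.Agent.R404.TC.Sp S, ∀ ν ∈ walls F hn1 N,
        δ * hs (fun i => (u i : K)) ≤ |dt (dir (fun i => (u i : K)) v) ν|
    · left
      refine h (fun i => (u i : K)) s (fun i => hunit _ (hus.1 i)) hus.2.1 (hint u s hus) ?_ ?_ h2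
      · refine hh.trans (mul_le_mul_of_nonneg_right (le_max_left _ _) (hs_nonneg _))
      · intro p hp h0
        exact h1 ⟨p, hp, h0⟩
    · right
      push Not at h2
      obtain ⟨v, hv, ν, hν, h3⟩ := h2
      refine ⟨ν, hν, ?_⟩
      rw [← log_av_mono (fun i => (u i).ne_zero)] at h3
      rcases v with v | v
      · exact Or.inl ⟨v, h3⟩
      · exact Or.inr ⟨v, mem_Sp_inr.1 hv, h3⟩
  · obtain ⟨R, T₀, h⟩ := fam S (by rw [hcard]; exact hS) F hn hdeg hiso hN0 hN' hε hB0
    refine ⟨R, max T₀ 0, fun T hT => ?_⟩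
    have hT1 : T₀ ≤ T := (le_max_left _ _).trans hT
    have hT2 : 0 ≤ T := (le_max_right _ _).trans hT
    have h1 := h T hT1
    let φ : (Fin m → Kˣ) → Fin m → K := fun u i => (u i : K)
    have hφ : Function.Injective φ := fun u u' h => by
      funext i
      exact Units.ext (congrFun h i)
    have hBx : {u : Fin m → Kˣ | ∀ i, u i ∈ (S : Set (HeightOneSpectrum (𝓞 K))).unit K ∧
        logHeight₁ (u i : K) ≤ T}.ncard = (Bx m S T).card := by
      rw [← Set.ncard_image_of_injective _ hφ, ← Set.ncard_coe_finset]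
      congr 1
      ext u
      constructor
      · rintro ⟨u', h2, rfl⟩
        exact Finset.mem_coe.2 (mem_Bx.2 fun i => ⟨hunit _ (h2 i).1, (h2 i).2⟩)
      · intro h2
        have h3 := mem_Bx.1 (Finset.mem_coe.1 h2)
        refine ⟨fun i => Units.mk0 (u i) (h3 i).1.1, fun i => ⟨?_, (h3 i).2⟩, rfl⟩
        exact (isU_iff _).1 (h3 i).1
    rw [hBx, card_Bx]
    push_cast
    refine le_trans ?_ h1
    rw [Nat.cast_le, ← Set.ncard_coe_finset]
    refine Set.ncard_le_ncard_of_injOn φ ?_ hφ.injOn (Finset.finite_toSet _)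
    rintro u ⟨hu1, s, hs1, hs2, hs3⟩
    refine Finset.mem_coe.2 (Finset.mem_filter.2 ⟨mem_Bx.2 fun i => ⟨hunit _ (hs1.1 i), hu1 i⟩,
      s, hs1.2.1, hint u s hs1, hs2.trans (mul_le_mul_of_nonneg_right (le_max_left _ _) hT2), ?_⟩)
    intro p hp
    by_contra hcon
    push Not at hcon
    apply hs3
    refine ⟨p, hp, hcon.1, ?_⟩
    have h2 : ev p.1 (φ u) * s + ev p.2 (φ u) = 0 := hcon.2
    show s = -ev p.2 (φ u) / ev p.1 (φ u)
    rw [eq_div_iff hcon.1]
    linear_combination h2

/-- The case of projective space. Let `X_0, ..., X_m, Y` be the coordinates of `P^(m+1)` and let `f`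
be a polynomial in `X_1/X_0, ..., X_m/X_0, Y/X_0` of degree at most `n`, with homogenisation `f*` of
degree `n`. Assume that for `i = 0, ..., m` the polynomial `f*(0, ..., 1, ..., 0, Y)`, with `1` at the
place `i`, is separable of degree `n` with nonzero constant term. Then for `100%` of the tuples
`u ∈ (O_S^*)^m` all the `s ∈ O_S` with `f(u, s) ∈ O_S^*` and `h(s) ≤ B T` are values of finitely many
rational functions. These are the integral points of the complement of the `m + 1` hyperplanes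
`X_i = 0` and the hypersurface `f* = 0` in `P^(m+1)`. -/
theorem projective (K : Type) [Field K] [NumberField K] (S : Finset (HeightOneSpectrum (𝓞 K)))
    (hS : 2 ≤ Fintype.card (InfinitePlace K) + S.card) (m n : ℕ) (hm : 1 ≤ m) (hn : 2 ≤ n)
    (f : MvPolynomial (Option (Fin m)) K) (hf : f.totalDegree ≤ n)
    (h0 : Nice (line0 f n) n) (h1 : ∀ i, Nice (line f n i) n) (B ε : ℝ) (hε : 0 < ε) :
    ∃ (R : Finset (((Fin m → ℤ) →₀ K) × ((Fin m → ℤ) →₀ K))) (T₀ : ℝ), ∀ T : ℝ, T₀ ≤ T →
      (({u : Fin m → Kˣ | (∀ i, u i ∈ (S : Set (HeightOneSpectrum (𝓞 K))).unit K ∧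
            logHeight₁ (u i : K) ≤ T) ∧
          ∃ s ∈ (S : Set (HeightOneSpectrum (𝓞 K))).integer K,
            (∃ w ∈ (S : Set (HeightOneSpectrum (𝓞 K))).unit K,
              (w : K) = MvPolynomial.eval (fun o => Option.elim o s fun i => (u i : K)) f) ∧
            logHeight₁ s ≤ B * T ∧
            ¬ ∃ p ∈ R, laurent p.1 (fun i => (u i : K)) ≠ 0 ∧
              s = -laurent p.2 (fun i => (u i : K)) / laurent p.1 (fun i => (u i : K))}.ncard :
                ℕ) : ℝ) ≤
          ε * (({u : Fin m → Kˣ | ∀ i, u i ∈ (S : Set (HeightOneSpectrum (𝓞 K))).unit K ∧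
            logHeight₁ (u i : K) ≤ T}.ncard : ℕ) : ℝ) := by
  have hF : Nondegenerate (toF f) n := by
    refine ⟨?_, wl m, fun ν hν => wl_ne hν, ?_⟩
    · intro e he
      obtain ⟨d, hd, rfl⟩ := exists_expo he
      have h2 : (expo d).2 = d none := rfl
      have := deg_le hf hd
      omega
    · intro θ hθ
      obtain ⟨κ, μ, hc, hd⟩ := nondeg hf h0 h1 θ hθ
      exact ⟨κ, μ, hc.deg, hc.zero, hc.sep, hd⟩
  obtain ⟨R, T₀, h⟩ := (result K S hS m n hn (toF f) hF (not_iso (by omega) hf h0 h1 hm) B).2 ε hε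
  refine ⟨R, T₀, fun T hT => le_trans ?_ (h T hT)⟩
  rw [Nat.cast_le]
  refine Set.ncard_le_ncard ?_ ?_
  · rintro u ⟨hu, s, hs, ⟨w, hw, hws⟩, hsB, hR⟩
    refine ⟨fun i => (hu i).2, s, ⟨fun i => (hu i).1, ?_, ?_⟩, hsB, hR⟩
    · show val (toF f) _ s ≠ 0
      rw [val_toF, ← hws]
      exact w.ne_zero
    · intro j _
      show s ^ j / val (toF f) _ s ∈ _
      rw [val_toF, ← hws]
      intro v hv
      have h2 : v.valuation K (w : K) = 1 := hw v hv
      have h3 : v.valuation K s ≤ 1 := hs v hv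
      rw [map_div₀, map_pow, h2, div_one]
      exact pow_le_one₀ zero_le h3
  · let φ : (Fin m → Kˣ) → Fin m → K := fun u i => (u i : K)
    have hφ : Function.Injective φ := fun u u' h => by
      funext i
      exact Units.ext (congrFun h i)
    refine Set.Finite.of_injOn (f := φ) (t := (Bx m S T : Set (Fin m → K))) ?_ hφ.injOn
      (Finset.finite_toSet _)
    rintro u ⟨hu1, s, hs1, -⟩
    exact Finset.mem_coe.2 (mem_Bx.2 fun i => ⟨(isU_iff (u i)).2 (hs1.1 i), hu1 i⟩)

end Pool.Agent.Results.MP_26d9ad_nt.UnitFamilies
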